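import Pool.Agent.Helper4.CI.Goals
import Pool.Agent.Helper22.Mono.A1

/-! # Packet S1: unique completion of a simplex in a face -/

namespace Mono.CI.S1

open Finset Filter Topology Pointwise Mono Mono.CI

variable {N k n : ℕ}

/-! ### Carriers -/

/-- The carrier of a point of a fan is unique. -/
theorem carrier_unique {Φ : Fan n} {τ τ' : Finset (Fin n → ℤ)} (h : Φ.IsFace τ)
    (h' : Φ.IsFace τ') {c c' : (Fin n → ℤ) → ℝ} (hc : ∀ u ∈ τ, 0 < c u)
    (hc' : ∀ u ∈ τ', 0 < c' u) (he : ∑ u ∈ τ, c u • toR u = ∑ u ∈ τ', c' u • toR u) :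
    τ = τ' := by
  classical
  have key : ∀ {τ τ' : Finset (Fin n → ℤ)}, Φ.IsFace τ → Φ.IsFace τ' →
      ∀ {c c' : (Fin n → ℤ) → ℝ}, (∀ u ∈ τ, 0 < c u) → (∀ u ∈ τ', 0 < c' u) →
      ∑ u ∈ τ, c u • toR u = ∑ u ∈ τ', c' u • toR u → τ ⊆ τ' := by
    intro τ τ' h h' c c' hc hc' he
    obtain ⟨F, hF, hs⟩ := h
    obtain ⟨F', hF', hs'⟩ := h'
    obtain ⟨x, hx⟩ : ∃ x, x = ∑ u ∈ τ, c u • toR u := ⟨_, rfl⟩
    have hx' : x = ∑ u ∈ τ', c' u • toR u := hx.trans he
    have crdform : ∀ {F τ : Finset (Fin n → ℤ)}, F ∈ Φ.mx → τ ⊆ F → ∀ {c : (Fin n → ℤ) → ℝ},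
        x = ∑ u ∈ τ, c u • toR u → crd F x = fun u => if u ∈ τ then c u else 0 := by
      intro F τ hF hs c hxc
      refine crd_unique (Φ.mx_indep F hF) ⟨fun u hu => ?_, ?_⟩
      · have : u ∉ τ := fun h => hu (hs h)
        simp [this]
      · rw [hxc]
        have : ∑ u ∈ τ, c u • toR u = ∑ u ∈ τ, (if u ∈ τ then c u else 0) • toR u :=
          Finset.sum_congr rfl fun u hu => by simp [hu]
        rw [this]
        refine Finset.sum_subset hs ?_
        intro u _ hu
        simp [hu]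
    have e := crdform hF hs hx
    have e' := crdform hF' hs' hx'
    have p : ∀ u, 0 ≤ crd F x u := by
      intro u
      rw [e]
      show 0 ≤ (if u ∈ τ then c u else 0)
      split_ifs with hu
      · exact (hc u hu).le
      · exact le_refl _
    have p' : ∀ u, 0 ≤ crd F' x u := by
      intro u
      rw [e']
      show 0 ≤ (if u ∈ τ' then c' u else 0)
      split_ifs with hu
      · exact (hc' u hu).le
      · exact le_refl _
    have hτF' : τ ⊆ F' := by
      intro u hu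
      by_contra hnu
      have := Φ.inter F hF F' hF' x p p' u hnu
      rw [e] at this
      simp only [hu, if_true] at this
      exact (hc u hu).ne' this
    have e2 := crdform hF' hτF' hx
    intro u hu
    by_contra hnu
    have h1 : crd F' x u = c u := by rw [e2]; simp [hu]
    have h2 : crd F' x u = 0 := by rw [e']; simp [hnu]
    rw [h1] at h2
    exact (hc u hu).ne' h2
  exact Finset.Subset.antisymm (key h h' hc hc' he) (key h' h hc' hc he.symm)

/-! ### Colours -/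

theorem ind_inj {c c' : Option (Fin k)} (h : ∀ j, ind c j = ind c' j) : c = c' := by
  cases c with
  | none =>
    cases c' with
    | none => rfl
    | some j => simpa [ind] using h j
  | some i =>
    cases c' with
    | none => simpa [ind] using h i
    | some j => exact congrArg some (by simpa [ind] using (h i).symm : j = i).symm

@[simp] theorem lift_nat (c : Option (Fin k)) (u : Fin N → ℤ) (j : Fin k) :
    lift c u (Fin.natAdd N j) = ind c j := by
  simp [lift]

@[simp] theorem lift_cast (c : Option (Fin k)) (u : Fin N → ℤ) (i : Fin N) :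
    lift c u (Fin.castAdd k i) = u i := by
  simp [lift]

theorem mem_cay {φ : Option (Fin k) → Finset (Fin N → ℤ)} {C : Finset (Option (Fin k))}
    {v : Fin (N + k) → ℤ} : v ∈ cay φ C ↔ ∃ c ∈ C, ∃ u ∈ φ c, lift c u = v := by
  simp [cay]

theorem mem_cols {ρ : Finset (Fin (N + k) → ℤ)} {c : Option (Fin k)} :
    c ∈ cols ρ ↔ ∃ v ∈ ρ, ∀ j, v (Fin.natAdd N j) = ind c j := by
  simp [cols]

theorem base_lift (c : Option (Fin k)) (u : Fin N → ℤ) : base (lift c u) = u := by
  funext i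
  simp [base]

theorem cay_colour {φ : Option (Fin k) → Finset (Fin N → ℤ)} {C : Finset (Option (Fin k))}
    {v : Fin (N + k) → ℤ} (hv : v ∈ cay φ C) {c : Option (Fin k)}
    (hc : ∀ j, v (Fin.natAdd N j) = ind c j) : ∃ u ∈ φ c, lift c u = v := by
  obtain ⟨c', -, u, hu, rfl⟩ := mem_cay.1 hv
  have : c' = c := ind_inj fun j => by rw [← hc j, lift_nat]
  subst this
  exact ⟨u, hu, rfl⟩

theorem dimC_mono {φ ψ : Option (Fin k) → Finset (Fin N → ℤ)} (h : ∀ c, φ c ⊆ ψ c) :
    dimC φ ≤ dimC ψ := by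
  refine Submodule.finrank_mono (Submodule.span_mono ?_)
  rintro x ⟨c, u, hu, v, hv, rfl⟩
  exact ⟨c, u, h c hu, v, h c hv, rfl⟩

theorem coll_sub {φ : Option (Fin k) → Finset (Fin N → ℤ)} {τ : Finset (Fin (N + k) → ℤ)}
    (hτ : τ ⊆ cay φ univ) (c : Option (Fin k)) : coll τ c ⊆ φ c := by
  intro x hx
  rw [coll, mem_image] at hx
  obtain ⟨v, hv, rfl⟩ := hx
  rw [mem_filter] at hv
  obtain ⟨u, hu, rfl⟩ := cay_colour (hτ hv.1) hv.2
  rwa [base_lift]

/-- The embedding of `ℝ^N` in `ℝ^(N+k)`. -/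
def emb (N k : ℕ) : (Fin N → ℝ) →ₗ[ℝ] (Fin (N + k) → ℝ) where
  toFun x := Fin.append x 0
  map_add' x y := by
    funext i
    refine Fin.addCases (fun i => ?_) (fun i => ?_) i <;> simp
  map_smul' a x := by
    funext i
    refine Fin.addCases (fun i => ?_) (fun i => ?_) i <;> simp

theorem emb_sub (c : Option (Fin k)) (u v : Fin N → ℤ) :
    emb N k (toR u - toR v) = toR (lift c u) - toR (lift c v) := by
  funext i
  refine Fin.addCases (fun i => ?_) (fun i => ?_) i <;> simp [emb]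

/-- The span of a simplex of the largest possible dimension. -/
theorem span_big {φ : Option (Fin k) → Finset (Fin N → ℤ)} {ρ : Finset (Fin (N + k) → ℤ)}
    (hρ : ρ ⊆ cay φ univ) (hI : Indep ρ) (hcard : ρ.card = dimC φ + (cols ρ).card)
    {c : Option (Fin k)} {u v : Fin N → ℤ} (hu : u ∈ φ c) (hv : v ∈ φ c) :
    toR (lift c u) - toR (lift c v) ∈
      Submodule.span ℝ (Set.range (fun u : ρ => toR (u : Fin (N + k) → ℤ))) := by
  classical
  set S := Submodule.span ℝ (Set.range (fun u : ρ => toR (u : Fin (N + k) → ℤ))) with hS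
  have hg : ∀ c : Option (Fin k), ∃ g : Fin (N + k) → ℤ, c ∈ cols ρ →
      g ∈ ρ ∧ ∀ j, g (Fin.natAdd N j) = ind c j := by
    intro c
    by_cases hc : c ∈ cols ρ
    · obtain ⟨v, hv, h⟩ := mem_cols.1 hc
      exact ⟨v, fun _ => ⟨hv, h⟩⟩
    · exact ⟨0, fun h => absurd h hc⟩
  choose g hg using hg
  set L₀ := Submodule.span ℝ
    {x : Fin N → ℝ | ∃ c, ∃ u ∈ φ c, ∃ v ∈ φ c, x = toR u - toR v} with hL₀
  set W := L₀.map (emb N k) with hW
  have hWmem : ∀ c : Option (Fin k), ∀ u ∈ φ c, ∀ v ∈ φ c,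
      toR (lift c u) - toR (lift c v) ∈ W := by
    intro c u hu v hv
    rw [← emb_sub]
    exact Submodule.mem_map_of_mem (Submodule.subset_span ⟨c, u, hu, v, hv, rfl⟩)
  set G : Finset (Fin (N + k) → ℝ) := (cols ρ).image (fun c => toR (g c)) with hG
  set S' := W ⊔ Submodule.span ℝ (G : Set (Fin (N + k) → ℝ)) with hS'
  have hle : S ≤ S' := by
    rw [hS, Submodule.span_le]
    rintro _ ⟨⟨w, hw⟩, rfl⟩
    obtain ⟨c, -, u, hu, rfl⟩ := mem_cay.1 (hρ hw)
    have hc : c ∈ cols ρ := mem_cols.2 ⟨_, hw, fun j => lift_nat _ _ _⟩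
    obtain ⟨hgρ, hgc⟩ := hg c hc
    obtain ⟨u', hu', he⟩ := cay_colour (hρ hgρ) hgc
    have h1 : toR (lift c u) - toR (lift c u') ∈ S' :=
      Submodule.mem_sup_left (hWmem c u hu u' hu')
    have h2 : toR (lift c u') ∈ S' := by
      rw [he]
      refine Submodule.mem_sup_right (Submodule.subset_span ?_)
      exact Finset.mem_coe.2 (Finset.mem_image_of_mem _ hc)
    have := S'.add_mem h1 h2
    rwa [sub_add_cancel] at this
  have h1 : Module.finrank ℝ S = ρ.card := by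
    rw [hS]
    have := finrank_span_eq_card (R := ℝ) hI
    rw [this, Fintype.card_coe]
  have h2 : Module.finrank ℝ S' ≤ ρ.card := by
    have e1 : Module.finrank ℝ S' ≤ Module.finrank ℝ W +
        Module.finrank ℝ (Submodule.span ℝ (G : Set (Fin (N + k) → ℝ))) :=
      Submodule.finrank_add_le_finrank_add_finrank _ _
    have e2 : Module.finrank ℝ W ≤ dimC φ := Submodule.finrank_map_le _ _
    have e3 : Module.finrank ℝ (Submodule.span ℝ (G : Set (Fin (N + k) → ℝ))) ≤ G.card :=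
      finrank_span_finset_le_card G
    have e4 : G.card ≤ (cols ρ).card := Finset.card_image_le
    omega
  have h3 : S = S' := Submodule.eq_of_le_of_finrank_le hle (by omega)
  rw [h3]
  exact Submodule.mem_sup_left (hWmem c u hu v hv)

theorem mem_smul_hull {ι : Type*} (s : Finset ι) (w : ι → ℝ) (p : ι → (Fin n → ℝ))
    (S : Set (Fin n → ℝ)) (hw : ∀ i ∈ s, 0 ≤ w i) (hp : ∀ i ∈ s, p i ∈ S)
    (ht : 0 < ∑ i ∈ s, w i) : ∑ i ∈ s, w i • p i ∈ (∑ i ∈ s, w i) • convexHull ℝ S := by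
  rw [Set.mem_smul_set]
  refine ⟨∑ i ∈ s, (w i / ∑ i ∈ s, w i) • p i, ?_, ?_⟩
  · refine (convex_convexHull ℝ S).sum_mem (fun i hi => div_nonneg (hw i hi) ht.le) ?_
      (fun i hi => subset_convexHull ℝ S (hp i hi))
    rw [← Finset.sum_div, div_self ht.ne']
  · rw [Finset.smul_sum]
    refine Finset.sum_congr rfl fun i _ => ?_
    rw [smul_smul, mul_div_cancel₀ _ ht.ne']

theorem face_nonempty {A : Finset (Fin N → ℤ)} (hA : A.Nonempty) (a : Fin N → ℤ) :
    (face A a).Nonempty ∧ ∀ v ∈ face A a, a ⬝ᵥ v = NA A a := by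
  classical
  have hfin : {z | ∃ v ∈ A, z = a ⬝ᵥ v} = ((A.image (fun v => a ⬝ᵥ v) : Finset ℤ) : Set ℤ) := by
    ext z
    simp only [Set.mem_ofPred_eq, coe_image, Set.mem_image, mem_coe]
    constructor
    · rintro ⟨v, hv, rfl⟩; exact ⟨v, hv, rfl⟩
    · rintro ⟨v, hv, rfl⟩; exact ⟨v, hv, rfl⟩
  have hbdd : BddBelow {z | ∃ v ∈ A, z = a ⬝ᵥ v} := by
    rw [hfin]; exact Finset.bddBelow _
  have hne : {z | ∃ v ∈ A, z = a ⬝ᵥ v}.Nonempty := by
    obtain ⟨v, hv⟩ := hA
    exact ⟨_, v, hv, rfl⟩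
  obtain ⟨v, hv, h⟩ := Int.csInf_mem hne hbdd
  refine ⟨⟨v, mem_filter.2 ⟨hv, h.symm⟩⟩, fun v hv => (mem_filter.1 hv).2⟩

theorem dot_pos {a v : Fin N → ℤ} (ha : ∀ i, 0 < a i) (hv : ∀ i, 0 ≤ v i) (h0 : v ≠ 0) :
    0 < a ⬝ᵥ v := by
  unfold dotProduct
  have hex : ∃ i, v i ≠ 0 := by
    by_contra hcon
    push Not at hcon
    exact h0 (funext hcon)
  obtain ⟨i, hi⟩ := hex
  refine Finset.sum_pos' (fun j _ => mul_nonneg (ha j).le (hv j)) ⟨i, mem_univ i, ?_⟩
  exact mul_pos (ha i) (lt_of_le_of_ne (hv i) (Ne.symm hi))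

/-- The number of missing colours. -/
theorem card_lower {ρ τ : Finset (Fin (N + k) → ℤ)} (hρτ : ρ ⊆ τ) (hτ : cols τ = univ) :
    ρ.card + (k + 1) ≤ τ.card + (cols ρ).card := by
  classical
  have hsub : univ \ cols ρ ⊆ cols (τ \ ρ) := by
    intro c hc
    rw [Finset.mem_sdiff] at hc
    have : c ∈ cols τ := by rw [hτ]; exact mem_univ c
    obtain ⟨v, hv, h⟩ := mem_cols.1 this
    refine mem_cols.2 ⟨v, Finset.mem_sdiff.2 ⟨hv, fun hvρ => hc.2 (mem_cols.2 ⟨v, hvρ, h⟩)⟩, h⟩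
  have hle : ∀ σ : Finset (Fin (N + k) → ℤ), (cols σ).card ≤ σ.card := by
    intro σ
    have hg : ∀ c : Option (Fin k), ∃ g : Fin (N + k) → ℤ, c ∈ cols σ →
        g ∈ σ ∧ ∀ j, g (Fin.natAdd N j) = ind c j := by
      intro c
      by_cases hc : c ∈ cols σ
      · obtain ⟨v, hv, h⟩ := mem_cols.1 hc
        exact ⟨v, fun _ => ⟨hv, h⟩⟩
      · exact ⟨0, fun h => absurd h hc⟩
    choose g hg using hg
    refine Finset.card_le_card_of_injOn g (fun c hc => (hg c hc).1) ?_
    intro c hc c' hc' he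
    refine ind_inj fun j => ?_
    rw [← (hg c hc).2 j, ← (hg c' hc').2 j, he]
  have h1 := (Finset.card_le_card hsub).trans (hle _)
  rw [Finset.card_sdiff_of_subset (Finset.subset_univ _), Finset.card_univ, Fintype.card_option,
    Fintype.card_fin, Finset.card_sdiff_of_subset hρτ] at h1
  have h2 := Finset.card_le_card hρτ
  have h3 : (cols ρ).card ≤ k + 1 := by
    have := Finset.card_le_univ (cols ρ)
    rwa [Fintype.card_option, Fintype.card_fin] at this
  omega

/-- The new vertices of a completion. -/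
theorem new_vertices {ρ τ : Finset (Fin (N + k) → ℤ)} (hρτ : ρ ⊆ τ) (hτ : cols τ = univ)
    (hcard : τ.card + (cols ρ).card = ρ.card + (k + 1)) :
    ∃ e : Option (Fin k) → (Fin (N + k) → ℤ), (∀ c, e c ∈ τ ∧ ∀ j, e c (Fin.natAdd N j) = ind c j) ∧
      ∀ f : (Fin (N + k) → ℤ) → (Fin (N + k) → ℝ),
        ∑ u ∈ τ \ ρ, f u = ∑ c ∈ univ \ cols ρ, f (e c) := by
  classical
  have he : ∀ c : Option (Fin k), ∃ e ∈ τ, ∀ j, e (Fin.natAdd N j) = ind c j := by
    intro c
    have : c ∈ cols τ := by rw [hτ]; exact mem_univ c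
    exact mem_cols.1 this
  choose e he1 he2 using he
  have hinj : Set.InjOn e ((univ \ cols ρ : Finset (Option (Fin k))) : Set (Option (Fin k))) := by
    intro c _ c' _ hcc
    refine ind_inj fun j => ?_
    rw [← he2 c j, ← he2 c' j, hcc]
  have himg : (univ \ cols ρ).image e = τ \ ρ := by
    refine Finset.eq_of_subset_of_card_le ?_ ?_
    · intro v hv
      obtain ⟨c, hc, rfl⟩ := mem_image.1 hv
      rw [Finset.mem_sdiff] at hc ⊢
      exact ⟨he1 c, fun hρ => hc.2 (mem_cols.2 ⟨_, hρ, he2 c⟩)⟩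
    · rw [Finset.card_image_of_injOn hinj, Finset.card_sdiff_of_subset hρτ,
        Finset.card_sdiff_of_subset (Finset.subset_univ _), Finset.card_univ, Fintype.card_option,
        Fintype.card_fin]
      have h2 := Finset.card_le_card hρτ
      have h3 : (cols ρ).card ≤ k + 1 := by
        have := Finset.card_le_univ (cols ρ)
        rwa [Fintype.card_option, Fintype.card_fin] at this
      omega
  refine ⟨e, fun c => ⟨he1 c, he2 c⟩, fun f => ?_⟩
  rw [← himg, Finset.sum_image hinj]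

theorem unique_part {A : Option (Fin k) → Finset (Fin N → ℤ)} {Φ : Fan (N + k)}
    {φ : Option (Fin k) → Finset (Fin N → ℤ)} {ρ τ τ' : Finset (Fin (N + k) → ℤ)}
    (hρ : ρ ⊆ cay φ univ) (hI : Indep ρ) (hcard : ρ.card = dimC φ + (cols ρ).card)
    (hτ : τ ∈ Compl A Φ ρ) (hτφ : τ ⊆ cay φ univ)
    (hτ' : τ' ∈ Compl A Φ ρ) (hτφ' : τ' ⊆ cay φ univ) : τ = τ' := by
  classical
  rw [Compl, mem_filter] at hτ hτ'
  obtain ⟨hf, hρτ, -, hcols, hc⟩ := hτ
  obtain ⟨hf', hρτ', -, hcols', hc'⟩ := hτ'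
  obtain ⟨e, he, hs⟩ := new_vertices hρτ hcols hc
  obtain ⟨e', he', hs'⟩ := new_vertices hρτ' hcols' hc'
  have hdiff : ∑ u ∈ τ \ ρ, toR u - ∑ u ∈ τ' \ ρ, toR u ∈
      Submodule.span ℝ (Set.range (fun u : ρ => toR (u : Fin (N + k) → ℤ))) := by
    rw [hs, hs', ← Finset.sum_sub_distrib]
    refine Submodule.sum_mem _ fun c _ => ?_
    obtain ⟨u, hu, h1⟩ := cay_colour (hτφ (he c).1) (he c).2
    obtain ⟨u', hu', h2⟩ := cay_colour (hτφ' (he' c).1) (he' c).2
    rw [← h1, ← h2]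
    exact span_big hρ hI hcard hu hu'
  rw [Submodule.mem_span_range_iff_exists_fun] at hdiff
  obtain ⟨r₀, hr₀⟩ := hdiff
  obtain ⟨r, hr⟩ : ∃ r : (Fin (N + k) → ℤ) → ℝ, ∑ u ∈ ρ, r u • toR u =
      ∑ u ∈ τ \ ρ, toR u - ∑ u ∈ τ' \ ρ, toR u := by
    refine ⟨fun u => if h : u ∈ ρ then r₀ ⟨u, h⟩ else 0, ?_⟩
    rw [← hr₀, ← Finset.sum_coe_sort ρ]
    refine Finset.sum_congr rfl fun u _ => ?_
    simp
  obtain ⟨K, hK⟩ : ∃ K : ℝ, ∀ u ∈ ρ, 0 < K ∧ 0 < K + r u := by
    refine ⟨1 + ∑ u ∈ ρ, |r u|, fun u hu => ?_⟩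
    have h1 : |r u| ≤ ∑ u ∈ ρ, |r u| :=
      Finset.single_le_sum (f := fun u => |r u|) (fun _ _ => abs_nonneg _) hu
    have h2 := neg_abs_le (r u)
    have h3 := abs_nonneg (r u)
    constructor <;> linarith
  refine carrier_unique (Φ := Φ) (c := fun u => if u ∈ ρ then K else 1)
    (c' := fun u => if u ∈ ρ then K + r u else 1) ((Fan.mem_faces Φ).1 hf)
    ((Fan.mem_faces Φ).1 hf') (fun u hu => ?_) (fun u hu => ?_) ?_
  · show 0 < (if u ∈ ρ then K else 1)
    split_ifs with h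
    · exact (hK u h).1
    · exact one_pos
  · show 0 < (if u ∈ ρ then K + r u else 1)
    split_ifs with h
    · exact (hK u h).2
    · exact one_pos
  · rw [← Finset.sum_sdiff hρτ, ← Finset.sum_sdiff hρτ']
    have e1 : ∑ u ∈ τ \ ρ, (if u ∈ ρ then K else 1) • toR u = ∑ u ∈ τ \ ρ, toR u :=
      Finset.sum_congr rfl fun u hu => by rw [if_neg (Finset.mem_sdiff.1 hu).2, one_smul]
    have e2 : ∑ u ∈ τ' \ ρ, (if u ∈ ρ then K + r u else 1) • toR u = ∑ u ∈ τ' \ ρ, toR u :=
      Finset.sum_congr rfl fun u hu => by rw [if_neg (Finset.mem_sdiff.1 hu).2, one_smul]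
    have e3 : ∑ u ∈ ρ, (if u ∈ ρ then K else 1) • toR u = ∑ u ∈ ρ, K • toR u :=
      Finset.sum_congr rfl fun u hu => by rw [if_pos hu]
    have e4 : ∑ u ∈ ρ, (if u ∈ ρ then K + r u else 1) • toR u =
        ∑ u ∈ ρ, K • toR u + ∑ u ∈ ρ, r u • toR u := by
      rw [← Finset.sum_add_distrib]
      exact Finset.sum_congr rfl fun u hu => by rw [if_pos hu, add_smul]
    rw [e1, e2, e3, e4, hr]
    abel

theorem projS_empty (s : Finset (Fin n → ℤ)) : projS ∅ s = s := by
  simp [projS]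

theorem exists_part (h2 : CellDecompC) (h6 : CellsEmptyC) (hD : CardColl)
    {A : Option (Fin k) → Finset (Fin N → ℤ)} {b : Fin N → ℝ}
    {L : ℕ} {b' : Fin (N + k) → ℝ} {Z : Finset (Fin (N + k) → ℤ)} {Φ' Φ : Fan (N + k)}
    (hT : TriC A b L b' Z Φ' Φ) (hb : ∀ i, 0 < b i)
    {φ : Option (Fin k) → Finset (Fin N → ℤ)} (hφ : φ ∈ cfacesC A)
    {ρ : Finset (Fin (N + k) → ℤ)} (hρf : ρ ∈ Φ.faces) (hρ : ρ ⊆ cay φ univ)
    (hcard : ρ.card = dimC φ + (cols ρ).card) :
    ∃ τ, τ ∈ Compl A Φ ρ ∧ τ ⊆ cay φ univ := by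
  classical
  have hcell : φ ∈ cellsC A ∅ b := by
    rw [(h6 N k A b hT.good hb).1]; exact hφ
  have hφ' := hφ
  rw [cfacesC, mem_filter] at hφ'
  obtain ⟨hφA, a, ha, hφa⟩ := hφ'
  have hsubA : ∀ c, φ c ⊆ A c := fun c => by
    have := Fintype.mem_piFinset.1 hφA c
    exact mem_powerset.1 this
  have hne : ∀ c, (φ c).Nonempty := fun c => by
    rw [hφa c]; exact (face_nonempty (hT.good.ne c) a).1
  have hval : ∀ c, ∀ v ∈ φ c, a ⬝ᵥ v = NA (A c) a := fun c v hv => by
    rw [hφa c] at hv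
    exact (face_nonempty (hT.good.ne c) a).2 v hv
  choose u hu using hne
  have hρF := (Fan.mem_faces Φ).1 hρf
  have hρnn : ∀ v ∈ ρ, ∀ i, 0 ≤ v i := fun v hv =>
    Φ.vert_nonneg v (Fan.IsFace.subset_vert Φ hρF hv)
  -- the point
  set y : Fin (N + k) → ℝ := ∑ c ∈ univ \ cols ρ, toR (lift c (u c)) with hy
  have hlnn : ∀ c, ∀ i, 0 ≤ toR (lift c (u c)) i := by
    intro c i
    refine Fin.addCases (fun i => ?_) (fun i => ?_) i
    · rw [toR_apply, lift_cast]
      exact_mod_cast hT.good.nonneg c _ (hsubA c (hu c)) i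
    · rw [toR_apply, lift_nat, ind]
      split_ifs <;> simp
  have hy0 : ∀ i, 0 ≤ y i := by
    intro i
    rw [hy, Finset.sum_apply]
    exact Finset.sum_nonneg fun c _ => hlnn c i
  obtain ⟨F, hF, hρsubF, hFpos⟩ := starCoverT (N + k) Φ univ ρ hρF (by simp) y (by simp)
    (fun i _ _ => hy0 i)
  have hF' := mem_mxT.1 hF
  obtain ⟨F', hF'mx, hFF'⟩ := hF'.1
  have hFeq : F = F' := by
    refine Finset.eq_of_subset_of_card_le hFF' ?_
    rw [Φ.mx_card F' hF'mx]
    have : F.card = (univ : Finset (Fin (N + k))).card := hF'.2.1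
    rw [this, Finset.card_univ, Fintype.card_fin]
  rw [← hFeq] at hF'mx
  clear hFeq hFF' F'
  have hFI := Φ.mx_indep F hF'mx
  have hFc := Φ.mx_card F hF'mx
  obtain ⟨K, hK⟩ : ∃ K : ℝ, 1 ≤ K ∧ ∀ v ∈ ρ, 0 < K + crd F y v := by
    refine ⟨1 + ∑ v ∈ ρ, |crd F y v|, ?_, fun v hv => ?_⟩
    · have : 0 ≤ ∑ v ∈ ρ, |crd F y v| := Finset.sum_nonneg fun _ _ => abs_nonneg _
      linarith
    · have h1 : |crd F y v| ≤ ∑ v ∈ ρ, |crd F y v| :=
        Finset.single_le_sum (f := fun v => |crd F y v|) (fun _ _ => abs_nonneg _) hv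
      have h2 := neg_abs_le (crd F y v)
      linarith
  obtain ⟨x, hx⟩ : ∃ x : Fin (N + k) → ℝ, x = y + ∑ v ∈ ρ, K • toR v := ⟨_, rfl⟩
  have hcrdx : ∀ v ∈ F, crd F x v = crd F y v + if v ∈ ρ then K else 0 := by
    intro v hv
    have hyc := sum_crd hFI hFc y
    refine crd_eq hFI (c := fun v => crd F y v + if v ∈ ρ then K else 0) ?_ hv
    rw [hx]
    conv_lhs => rw [← hyc]
    simp only [add_smul]
    rw [Finset.sum_add_distrib]
    congr 1
    have : ∑ v ∈ ρ, K • toR v = ∑ v ∈ ρ, (if v ∈ ρ then K else 0) • toR v :=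
      Finset.sum_congr rfl fun v hv => by rw [if_pos hv]
    rw [this]
    refine Finset.sum_subset hρsubF ?_
    intro v _ hv
    simp [hv]
  have hx0 : ∀ v ∈ F, 0 ≤ crd F x v := by
    intro v hv
    rw [hcrdx v hv]
    split_ifs with h
    · have := hK.2 v h; linarith
    · have := hFpos v h; linarith
  set τ := F.filter (fun v => crd F x v ≠ 0) with hτ
  have hρτ : ρ ⊆ τ := by
    intro v hv
    rw [hτ, mem_filter]
    refine ⟨hρsubF hv, ?_⟩
    rw [hcrdx v (hρsubF hv), if_pos hv]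
    have := hK.2 v hv
    exact (by linarith : 0 < crd F y v + K).ne'
  have hτface : Φ.IsFace τ := ⟨F, hF'mx, Finset.filter_subset _ _⟩
  have hτsum : x = ∑ v ∈ τ, crd F x v • toR v := by
    conv_lhs => rw [← sum_crd hFI hFc x]
    symm
    refine Finset.sum_subset (Finset.filter_subset _ _) ?_
    intro v hv hnv
    have : crd F x v = 0 := by
      by_contra hne
      exact hnv (mem_filter.2 ⟨hv, hne⟩)
    rw [this, zero_smul]
  have hτpos : ∀ v ∈ τ, 0 < crd F x v := by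
    intro v hv
    rw [hτ, mem_filter] at hv
    exact lt_of_le_of_ne (hx0 v hv.1) (Ne.symm hv.2)
  -- x lies in the cone over the face
  obtain ⟨t, ht, hxt⟩ : ∃ t : ℝ, 0 < t ∧
      x ∈ t • convexHull ℝ (toR '' (cay φ univ : Set (Fin (N + k) → ℤ))) := by
    have hsum : x = ∑ i ∈ (univ \ cols ρ).disjSum ρ,
        (Sum.elim (fun _ => (1 : ℝ)) (fun _ => K) i : ℝ) •
        (Sum.elim (fun c => toR (lift c (u c))) toR i : Fin (N + k) → ℝ) := by
      rw [Finset.sum_disjSum, hx, hy]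
      simp
    have hpos : 0 < ∑ i ∈ (univ \ cols ρ).disjSum ρ,
        (Sum.elim (fun _ => (1 : ℝ)) (fun _ => K) i : ℝ) := by
      rw [Finset.sum_disjSum]
      simp only [Sum.elim_inl, Sum.elim_inr, Finset.sum_const, nsmul_eq_mul, mul_one]
      have hK0 : (0 : ℝ) < K := by linarith [hK.1]
      by_cases hρe : ρ = ∅
      · have : (univ \ cols ρ : Finset (Option (Fin k))).Nonempty := by
          refine ⟨none, Finset.mem_sdiff.2 ⟨mem_univ _, ?_⟩⟩
          rw [hρe]
          intro h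
          obtain ⟨v, hv, -⟩ := mem_cols.1 h
          simp at hv
        have h1 : (0 : ℝ) < ((univ \ cols ρ : Finset (Option (Fin k))).card : ℝ) := by
          exact_mod_cast Finset.card_pos.2 this
        have h3 : (0 : ℝ) ≤ (ρ.card : ℝ) * K := mul_nonneg (Nat.cast_nonneg _) hK0.le
        linarith
      · have h1 : (0 : ℝ) < (ρ.card : ℝ) := by
          exact_mod_cast Finset.card_pos.2 (Finset.nonempty_iff_ne_empty.2 hρe)
        have h3 : (0 : ℝ) < (ρ.card : ℝ) * K := mul_pos h1 hK0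
        have h4 : (0 : ℝ) ≤ ((univ \ cols ρ : Finset (Option (Fin k))).card : ℝ) :=
          Nat.cast_nonneg _
        linarith
    refine ⟨_, hpos, ?_⟩
    rw [hsum]
    refine mem_smul_hull _ _ _ _ ?_ ?_ hpos
    · rintro (c | v) _
      · exact zero_le_one
      · show 0 ≤ K
        linarith [hK.1]
    · rintro (c | v) hi
      · exact ⟨lift c (u c), mem_cay.2 ⟨c, mem_univ c, u c, hu c, rfl⟩, rfl⟩
      · exact ⟨v, hρ (Finset.inr_mem_disjSum.1 hi), rfl⟩
  obtain ⟨hdec, -⟩ := h2 N k A b L b' Z Φ' Φ hT ∅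
  have hdec' := (hdec φ hcell univ x t ht).1
  have hKh : Kh k (∅ : Finset (Fin N)) = ∅ := by simp [Kh]
  rw [hKh, projS_empty] at hdec'
  obtain ⟨ρ₁, hρ₁f, hρ₁Z, hρ₁c, c₁, hc₁, hx₁, -⟩ := hdec' hxt
  have heK : eK (∅ : Finset (Fin (N + k))) = ∅ := by simp [eK]
  rw [heK] at hρ₁Z
  have hρ₁d : ρ₁ \ Z = ρ₁ := by
    rw [Finset.sdiff_eq_self_iff_disjoint]
    exact Finset.disjoint_iff_inter_eq_empty.2 hρ₁Z
  rw [projS_empty, hρ₁d] at hc₁ hx₁
  rw [hρ₁d] at hρ₁c
  have hτρ : τ = ρ₁ :=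
    carrier_unique hτface ((Fan.mem_faces Φ).1 hρ₁f) hτpos hc₁ (hτsum.symm.trans hx₁)
  have hτφ : τ ⊆ cay φ univ := by rw [hτρ]; exact hρ₁c
  have hcaysub : cay φ univ ⊆ cay A univ := by
    intro v hv
    obtain ⟨c, hc, w, hw, rfl⟩ := mem_cay.1 hv
    exact mem_cay.2 ⟨c, hc, w, hsubA c hw, rfl⟩
  -- all colours occur
  have hcols : cols τ = univ := by
    rw [Finset.eq_univ_iff_forall]
    intro c
    by_cases hc : c ∈ cols ρ
    · obtain ⟨v, hv, h⟩ := mem_cols.1 hc
      exact mem_cols.2 ⟨v, hρτ hv, h⟩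
    · -- a linear form which is positive on the colour `c` and zero on the others
      obtain ⟨ℓ, hℓ0, hℓ1⟩ : ∃ ℓ : Fin (N + k) → ℝ,
          (∀ c' ≠ c, ∀ w ∈ φ c', ℓ ⬝ᵥ toR (lift c' w) = 0) ∧
          ∀ w ∈ φ c, 0 < ℓ ⬝ᵥ toR (lift c w) := by
        have hdot : ∀ (p : Fin N → ℝ) (q : Fin k → ℝ) (c' : Option (Fin k)) (w : Fin N → ℤ),
            (Fin.append p q : Fin (N + k) → ℝ) ⬝ᵥ toR (lift c' w) =
              p ⬝ᵥ toR w + ∑ j, q j * (ind c' j : ℝ) := by
          intro p q c' w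
          unfold dotProduct
          rw [Fin.sum_univ_add]
          congr 1
          · refine Finset.sum_congr rfl fun i _ => ?_
            rw [Fin.append_left, toR_apply, lift_cast, toR_apply]
          · refine Finset.sum_congr rfl fun i _ => ?_
            rw [Fin.append_right, toR_apply, lift_nat]
        cases c with
        | none =>
          refine ⟨Fin.append (toR a) (fun j => -(NA (A (some j)) a : ℝ)), ?_, ?_⟩
          · intro c' hc' w hw
            rw [hdot]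
            cases c' with
            | none => exact absurd rfl hc'
            | some j =>
              have h1 : ∑ j', -(NA (A (some j')) a : ℝ) * (ind (some j) j' : ℝ) =
                  -(NA (A (some j)) a : ℝ) := by
                rw [Finset.sum_eq_single j]
                · simp [ind]
                · intro j' _ hj'
                  have : ind (some j) j' = 0 := by
                    simp only [ind, Option.some.injEq]
                    rw [if_neg (Ne.symm hj')]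
                  rw [this]; simp
                · simp
              rw [h1]
              have h3 := hval (some j) w hw
              have h4 : toR a ⬝ᵥ toR w = ((a ⬝ᵥ w : ℤ) : ℝ) := by simp [dotProduct]
              rw [h4, h3]
              ring
          · intro w hw
            rw [hdot]
            have h1 : ∑ j', -(NA (A (some j')) a : ℝ) * (ind (none : Option (Fin k)) j' : ℝ) =
                0 := by simp [ind]
            have h4 : toR a ⬝ᵥ toR w = ((a ⬝ᵥ w : ℤ) : ℝ) := by simp [dotProduct]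
            rw [h1, h4, add_zero]
            exact_mod_cast dot_pos ha (hT.good.nonneg none w (hsubA none hw))
              (fun h => hT.good.zero none (h ▸ hsubA none hw))
        | some j =>
          refine ⟨Fin.append 0 (fun j' => if j' = j then 1 else 0), ?_, ?_⟩
          · intro c' hc' w hw
            rw [hdot]
            have : ind c' j = 0 := by
              simp only [ind]
              rw [if_neg hc']
            simp [this]
          · intro w hw
            rw [hdot]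
            simp [ind]
      have hnn : ∀ v ∈ cay φ univ, 0 ≤ ℓ ⬝ᵥ toR v := by
        intro v hv
        obtain ⟨c', -, w, hw, rfl⟩ := mem_cay.1 hv
        by_cases h : c' = c
        · subst h; exact (hℓ1 w hw).le
        · exact (hℓ0 c' h w hw).ge
      have hxpos : 0 < ℓ ⬝ᵥ x := by
        rw [hx, hy, dotProduct_add, dotProduct_sum, dotProduct_sum]
        have h1 : 0 ≤ ∑ v ∈ ρ, ℓ ⬝ᵥ K • toR v := by
          refine Finset.sum_nonneg fun v hv => ?_
          rw [dotProduct_smul, smul_eq_mul]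
          exact mul_nonneg (by linarith [hK.1]) (hnn v (hρ hv))
        have h3 : 0 < ∑ c ∈ univ \ cols ρ, ℓ ⬝ᵥ toR (lift c (u c)) := by
          refine Finset.sum_pos' (fun c' _ => hnn _ (mem_cay.2 ⟨c', mem_univ _, _, hu c', rfl⟩))
            ⟨c, Finset.mem_sdiff.2 ⟨mem_univ _, hc⟩, hℓ1 _ (hu c)⟩
        linarith
      rw [hτsum, dotProduct_sum] at hxpos
      obtain ⟨v, hv, hv0⟩ := Finset.exists_ne_zero_of_sum_ne_zero hxpos.ne'
      obtain ⟨c', -, w, hw, rfl⟩ := mem_cay.1 (hτφ hv)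
      by_cases h : c' = c
      · subst h
        exact mem_cols.2 ⟨_, hv, fun j => lift_nat _ _ _⟩
      · rw [dotProduct_smul, hℓ0 c' h w hw, smul_zero] at hv0
        exact absurd rfl hv0
  have hlow := card_lower hρτ hcols
  have hτI := Fan.IsFace.indep Φ hτface
  have hup := hD N k τ hτI (fun v hv => by
    obtain ⟨c, -, w, -, h⟩ := mem_cay.1 (hτφ hv)
    exact ⟨c, w, h.symm⟩)
  have hdim : dimC (coll τ) ≤ dimC φ := dimC_mono (coll_sub hτφ)
  have hcu : (cols τ).card = k + 1 := by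
    rw [hcols, Finset.card_univ, Fintype.card_option, Fintype.card_fin]
  refine ⟨τ, ?_, hτφ⟩
  rw [Compl, mem_filter]
  exact ⟨(Fan.mem_faces Φ).2 hτface, hρτ, hτφ.trans hcaysub, hcols, by omega⟩

end Mono.CI.S1

namespace Mono.CI

open Finset S1

/-- S1. -/
theorem uniqueCompl (h2 : CellDecompC) (h6 : CellsEmptyC) (hD : CardColl) (_hS : ScaleRel) :
    UniqueCompl := by
  intro N k A b L b' Z Φ' Φ hT hb φ hφ ρ hρf hρ hcard
  obtain ⟨τ, hτ, hτφ⟩ := exists_part h2 h6 hD hT hb hφ hρf hρ hcard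
  refine ⟨τ, ⟨hτ, hτφ⟩, ?_⟩
  rintro τ' ⟨hτ', hτφ'⟩
  have hI := Fan.IsFace.indep Φ ((Fan.mem_faces Φ).1 hρf)
  exact unique_part hρ hI hcard hτ' hτφ' hτ hτφ

end Mono.CI
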